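import Mathlib

/-!
# Irregular indices in Galois orbits for almost all primes: statements of the pieces

Owner helper22 (MP_a3a416_nt).

Aim: let `d` be even; for almost all primes `p` (logarithmic density) with `(p - 1) / d` odd FEWER
than half of the `φ(d)` indices `n` with `gcd (n - 1, p - 1) = (p - 1) / d` are irregular.

Let `χ` be a character modulo `p` of order `d`, `S = ∑_{a < p/2} χ(a)`. If half of the indices are
irregular then `∏_σ |S(χ^σ)| = p^(φ(d)/2) m` with an integer `m ≥ 1`, so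
`m (π/2)^φ(d) ∏_σ ∏_{q > 2} |1 - χ^σ(q)/q| = 1`, the product over all odd primes `q`. The product over
`q > z = (log x)^40` is near `1` (large sieve, `S_TAIL`), the one over `y < q ≤ z` also, by a bound for
the mean square of `∑ χ_p(q)/q` over `p` with the weights `p^(-s)`, which uses only UPPER bounds for
the zeta functions of the fields `ℚ((q/q')^(1/d))` (`S_PRM`, `S_PURE`, `S_ROOT`, `S_MID`); the values
at the primes `q ≤ y` are equidistributed by Chebotarev's theorem (`S_KUM`, `S_DENS`), and their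
product is rarely near a given discrete set (`S_MODEL`).
-/

set_option autoImplicit false

namespace Pool.Agent.K1H22.OG

open Finset NumberField Filter Topology

/-- the primes `q` with `y < q ≤ z` -/
def PI (y z : ℕ) : Finset ℕ := (Ioc y z).filter Nat.Prime

/-- the exponents `a < d` prime to `d` -/
def un (d : ℕ) : Finset ℕ := (range d).filter (fun a => Nat.Coprime a d)

/-- the standard primitive `d`-th root of unity -/
noncomputable def zt (d : ℕ) : ℂ := Complex.exp (2 * Real.pi * Complex.I / d)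

open scoped Classical in
/-- the numbers `2 ≤ n ≤ t` all of whose prime factors are greater than `z` -/
noncomputable def rough (z t : ℕ) : Finset ℕ :=
  (Icc 2 t).filter (fun n => ∀ q, q.Prime → q ∣ n → z < q)

/-- T1a: sums of characters over `z`-rough numbers, by the large sieve
(`Pool.Agent.H771R4.SE.badCountI`; model: `Pool.Agent.R361.AC.one_t`, `tail_few`). -/
def S_ROUGH : Prop := ∀ A : ℝ, ∃ x0 : ℕ, ∀ x ≥ x0, ∀ z : ℕ, (Real.log x) ^ 40 ≤ (z : ℝ) →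
  (z : ℝ) ≤ (Real.log x) ^ A → ∃ Exc : Finset ℕ, (Exc.card : ℝ) ≤ (x : ℝ) ^ (3 / 4 : ℝ) ∧
    ∀ p, p.Prime → p ≤ x → p ∉ Exc → ∀ χ : DirichletCharacter ℂ p, χ ≠ 1 → ∀ t : ℕ,
      z ≤ t → t ≤ x →
        ‖∑ n ∈ rough z t, χ (n : ZMod p)‖ ≤
          4 * t / (Real.log x) ^ 2

/-- T1: the half sums of odd characters and the products over the primes up to `z` -/
def S_TAIL : Prop := ∀ η : ℝ, 0 < η → ∀ A : ℝ, ∃ x0 : ℕ, ∀ x ≥ x0, ∀ z : ℕ,
  (Real.log x) ^ 40 ≤ (z : ℝ) → (z : ℝ) ≤ (Real.log x) ^ A →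
    ∃ Exc : Finset ℕ, (Exc.card : ℝ) ≤ (x : ℝ) ^ (7 / 8 : ℝ) ∧
      ∀ p, p.Prime → p ≤ x → x < p ^ 2 → p ∉ Exc → ∀ χ : DirichletCharacter ℂ p, χ.Odd →
        |Real.log (Real.pi / (2 * √p) * ‖∑ a ∈ Icc 1 ((p - 1) / 2), χ (a : ZMod p)‖) +
          ∑ q ∈ PI 2 z, Real.log ‖1 - χ (q : ZMod p) / (q : ℂ)‖| ≤ η

/-- T1b -/
def S_TAILof : Prop := S_ROUGH → S_TAIL

/-- T2: an upper bound for the number of primes of degree one, with a weak dependence on the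
discriminant (from `Pool.Agent.K1H79.TOS.zeta_data` and the three lines theorem) -/
def S_PRM : Prop := ∀ n : ℕ, ∃ C : ℝ, 0 < C ∧ ∀ (F : Type) [Field F] [NumberField F],
  Module.finrank ℚ F = n → ∀ s : ℝ, 1 < s → s ≤ 2 → ∀ T : Finset ℕ, (∀ p ∈ T, p.Prime) →
    ∑ p ∈ T, (Nat.card (𝓞 F →+* ZMod p) : ℝ) * (p : ℝ) ^ (-s) ≤
      Real.log (1 / (s - 1)) + C * (1 + Real.log (1 + Real.log |(discr F : ℝ)|))

/-- T3: the pure fields `ℚ((q/q')^(1/d))` -/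
def S_PURE : Prop := ∀ d : ℕ, 1 ≤ d → ∀ q q' : ℕ, q.Prime → q'.Prime → q ≠ q' →
  ∃ (F : Type) (_ : Field F) (_ : NumberField F), Module.finrank ℚ F = d ∧
    |(discr F : ℝ)| ≤ ((d * q * q' : ℕ) : ℝ) ^ (d * d) ∧
    ∀ p : ℕ, p.Prime → ¬ p ∣ d * q * q' →
      Nat.card {x : ZMod p // (q' : ZMod p) * x ^ d = q} ≤ Nat.card (𝓞 F →+* ZMod p)

open scoped Classical in
/-- T4: characters of order dividing `d` and roots of `x ^ d = a` -/
def S_ROOT : Prop := ∀ (d p : ℕ) [Fact p.Prime], 1 ≤ d → ∀ a : (ZMod p)ˣ,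
  ∑ χ ∈ (univ : Finset (DirichletCharacter ℂ p)).filter (fun χ => χ ^ d = 1), χ (a : ZMod p) =
    ((Nat.card {x : ZMod p // x ^ d = a} : ℕ) : ℂ)

/-- the mean square of `∑_{y < q ≤ z} χ_p(q)/q` -/
def S_MID : Prop := ∀ d : ℕ, 1 ≤ d → ∃ C : ℝ, 0 < C ∧ ∀ x y z : ℕ, 3 ≤ x → d ≤ y → 2 ≤ z →
  ∀ (P : Finset ℕ) (χ : ∀ p : ℕ, DirichletCharacter ℂ p),
    (∀ p ∈ P, p.Prime ∧ p ≤ x ∧ χ p ^ d = 1 ∧ χ p ≠ 1) →
      ∑ p ∈ P, (1 / (p : ℝ)) * ‖∑ q ∈ PI y z, χ p (q : ZMod p) / (q : ℂ)‖ ^ 2 ≤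
        C * (1 + Real.log (Real.log x)) / y + C * (1 + Real.log (1 + Real.log z)) ^ 3

/-- T5 (helper22) -/
def S_MIDof : Prop := S_PRM → S_PURE → S_ROOT → S_MID

/-- T6: Kummer theory -/
def S_KUM : Prop := ∀ (d : ℕ) (s : Finset ℕ), 1 ≤ d → (∀ q ∈ s, q.Prime ∧ ¬ q ∣ d) →
  ∃ (L : Type) (_ : Field L) (_ : NumberField L) (_ : IsGalois ℚ L) (ζ : L) (α : ℕ → L),
    IsPrimitiveRoot ζ d ∧ (∀ q ∈ s, α q ^ d = (q : L)) ∧
    (∀ g : Gal(L/ℚ), g ζ = ζ → (∀ q ∈ s, g (α q) = α q) → g = 1) ∧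
    d ^ s.card ≤ Nat.card {g : Gal(L/ℚ) // g ζ = ζ}

/-- the values of a character of order `d` modulo `p` at the primes in `s` are given by an element
of `B` -/
def Pat (d : ℕ) (s : Finset ℕ) (B : Finset (s → Fin d)) (p : ℕ) : Prop :=
  ∃ χ : DirichletCharacter ℂ p, orderOf χ = d ∧ ∃ b ∈ B, ∀ q : s,
    χ ((q : ℕ) : ZMod p) = zt d ^ (b q : ℕ)

open scoped Classical in
/-- the density of the primes with given values -/
def S_DENS : Prop := ∀ (d : ℕ) (s : Finset ℕ), 1 ≤ d → (∀ q ∈ s, q.Prime ∧ ¬ q ∣ d) →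
  ∀ (B : Finset (s → Fin d)) (ε : ℝ), 0 < ε → ∃ N0 : ℕ, ∀ N ≥ N0,
    ((((Icc 1 N).filter (fun p => p.Prime ∧ Pat d s B p)).card : ℕ) : ℝ) ≤
      ((B.card : ℝ) / (d : ℝ) ^ s.card + ε) * Nat.primeCounting N

/-- T7: `S_DENS` from Chebotarev's theorem (`Pool.Agent.W401.Cheb.chebotarev`, `torsor`) -/
def S_DENSof : Prop := S_KUM → S_DENS

open scoped Classical in
/-- T8: sums of reciprocals of primes -/
def S_ABEL : Prop := ∃ C : ℝ, 0 < C ∧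
  (∀ x : ℕ, 3 ≤ x → ∑ p ∈ (Icc 1 x).filter Nat.Prime, 1 / (p : ℝ) ≤ Real.log (Real.log x) + C) ∧
  ∀ (Q : ℕ → Prop) (c : ℝ) (N0 : ℕ), 0 ≤ c →
    (∀ N ≥ N0, ((((Icc 1 N).filter (fun p => p.Prime ∧ Q p)).card : ℕ) : ℝ) ≤ c * Nat.primeCounting N) →
      ∃ C' : ℝ, ∀ x : ℕ, 3 ≤ x →
        ∑ p ∈ (Icc 1 x).filter (fun p => p.Prime ∧ Q p), 1 / (p : ℝ) ≤
          c * Real.log (Real.log x) + C'

/-- `∏ |1 - ζ^(a b) / q|` over the `a` prime to `d` -/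
noncomputable def gg (d q b : ℕ) : ℝ := ∏ a ∈ un d, ‖1 - zt d ^ (a * b) / (q : ℂ)‖

/-- the primes up to `y` not dividing `d` -/
def sm (d y : ℕ) : Finset ℕ := (Icc 1 y).filter (fun q => q.Prime ∧ ¬ q ∣ d)

open scoped Classical in
/-- T9: anti-concentration in the random model -/
def S_MODEL : Prop := ∀ (d : ℕ) (U : Finset ℝ) (ε : ℝ), 2 ≤ d → Even d → 0 < ε →
  ∃ (ρ : ℝ) (y0 : ℕ), 0 < ρ ∧ ∀ y ≥ y0,
    (((univ : Finset (sm d y → Fin d)).filter (fun b => ∃ u ∈ U, ∃ m : ℕ, 1 ≤ m ∧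
      |Real.log m + u + ∑ q : sm d y, Real.log (gg d q (b q))| ≤ ρ)).card : ℝ) ≤
        ε * (d : ℝ) ^ (sm d y).card

/-- T10 (helper22) -/
def S_DIV : Prop := ∀ (p d t : ℕ), p.Prime → 3 ≤ d → d * t = p - 1 → Odd t →
  d.totient ≤ 2 * ((Icc 2 (p - 1)).filter (fun n => Nat.gcd (n - 1) (p - 1) = t ∧
    (p : ℤ) ∣ (bernoulli n).num)).card →
  ∀ χ : DirichletCharacter ℂ p, orderOf χ = d → χ.Odd ∧ ∃ m : ℕ, 1 ≤ m ∧
    ∏ a ∈ un d, ‖∑ b ∈ Icc 1 ((p - 1) / 2), (χ ^ a) (b : ZMod p)‖ = (√p) ^ d.totient * m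

end Pool.Agent.K1H22.OG
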