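import Mathlib
import Pool.Agent.K1H22.OG.Stm
import Pool.Agent.K1H22.RG.Orb

/-! # `S_DIV` -/

set_option autoImplicit false

namespace Pool.Agent.K1H22.OG

open Finset NumberField Filter Topology
open Pool.Agent.K1H22.RG

theorem prim_at {p : ℕ} [hp : Fact p.Prime] {R : Type} [CommRing R] [IsDomain R] (g : (ZMod p)ˣ)
    (hpow : ∀ a : (ZMod p)ˣ, ∃ j : ℕ, g ^ j = a) (χ : MulChar (ZMod p) R) :
    IsPrimitiveRoot (χ (g : ZMod p)) (orderOf χ) := by
  constructor
  · rw [← MulChar.pow_apply_coe, pow_orderOf_eq_one, MulChar.one_apply_coe]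
  · intro l hl
    apply orderOf_dvd_of_pow_eq_one
    refine MulChar.ext fun t => ?_
    obtain ⟨j, rfl⟩ := hpow t
    rw [MulChar.pow_apply_coe, Units.val_pow_eq_pow_val, map_pow, ← pow_mul, mul_comm, pow_mul,
      hl, one_pow, ← Units.val_pow_eq_pow_val, MulChar.one_apply_coe]

theorem un_card (d : ℕ) (hd : 2 ≤ d) : (un d).card = d.totient := by
  rw [Nat.totient_eq_card_coprime]
  congr 1
  ext a
  simp only [un, mem_filter, mem_range]
  rw [Nat.coprime_comm]

theorem t_DIV : S_DIV := by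
  classical
  intro p d t hp hd3 hdt htodd hcard χ hχ
  haveI : Fact p.Prime := ⟨hp⟩
  have ht0 : 0 < t := htodd.pos
  have htt : t % 2 = 1 := Nat.odd_iff.mp htodd
  have hp4 : 4 ≤ p := by
    have : 3 * 1 ≤ d * t := Nat.mul_le_mul hd3 ht0
    omega
  have hp5 : 5 ≤ p := by
    rcases Nat.lt_or_ge p 5 with h | h
    · have : p = 4 := by omega
      subst this
      exact absurd hp (by decide)
    · exact h
  have hpo : p % 2 = 1 := by
    rcases hp.eq_two_or_odd with h1 | h1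
    · omega
    · exact h1
  haveI : NeZero d := ⟨by omega⟩
  haveI : NeZero ((d : ℕ) : ℚ) := ⟨by exact_mod_cast (by omega : d ≠ 0)⟩
  haveI : IsCyclotomicExtension {d} ℚ (CyclotomicField d ℚ) :=
    CyclotomicField.isCyclotomicExtension d ℚ
  have hz := IsCyclotomicExtension.zeta_spec d ℚ (CyclotomicField d ℚ)
  have hzO := hz.toInteger_isPrimitiveRoot
  obtain ⟨χ', hχ'⟩ := MulChar.exists_mulChar_orderOf (ZMod p) (n := d) (by
    rw [ZMod.card]; exact ⟨t, hdt.symm⟩) hzO
  have hodd : χ (-1) = -1 := odd_of_order hpo χ htt (by rw [hχ]; exact hdt) (by norm_num)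
  refine ⟨hodd, ?_⟩
  -- the irregular indices
  have hirr : (Icc 2 (p - 1)).filter (fun n => Nat.gcd (n - 1) (p - 1) = t ∧
      (p : ℤ) ∣ (bernoulli n).num) = irr p t := by
    rw [irr_eq hp5 htt, orb, filter_filter]
  rw [hirr] at hcard
  have hdvd := pow_irr_dvd (t := t) hp5 hdt (K := CyclotomicField d ℚ) χ' hχ'
  have hne := norm_ne hpo χ' htt (by rw [hχ']; exact hdt)
  obtain ⟨h, hh⟩ : Even d.totient := Nat.totient_even (by omega)
  have hle : h ≤ (irr p t).card := by omega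
  obtain ⟨m, hm⟩ := (pow_dvd_pow p hle).trans hdvd
  have hm0 : 1 ≤ m := by
    rcases Nat.eq_zero_or_pos m with h0 | h0
    · rw [h0, mul_zero] at hm
      exact absurd hm hne
    · exact h0
  refine ⟨m, hm0, ?_⟩
  have hN := norm_eq_prod (HS χ')
  rw [hm] at hN
  -- the conjugates
  obtain ⟨g, -, hpow, -⟩ := gen χ
  have hx := prim_at g hpow χ
  rw [hχ] at hx
  have hconj : ∀ σ : CyclotomicField d ℚ →ₐ[ℚ] ℂ, ∃ a, a ∈ un d ∧ cj χ' σ = χ ^ a := by
    intro σ
    have h1 := prim_at g hpow χ'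
    rw [hχ'] at h1
    have h2 : IsPrimitiveRoot (cj χ' σ (g : ZMod p)) d :=
      h1.map_of_injective (f := σ.toRingHom.comp (algebraMap (𝓞 (CyclotomicField d ℚ)) (CyclotomicField d ℚ)))
        (σ.toRingHom.injective.comp RingOfIntegers.coe_injective)
    obtain ⟨a, ha, hac, hae⟩ := hx.isPrimitiveRoot_iff.mp h2
    refine ⟨a, ?_, ?_⟩
    · rw [un, mem_filter, mem_range]
      exact ⟨ha, hac⟩
    · refine MulChar.ext fun u => ?_
      obtain ⟨j, rfl⟩ := hpow u
      rw [MulChar.pow_apply_coe, Units.val_pow_eq_pow_val, map_pow, map_pow, ← hae, ← pow_mul,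
        ← pow_mul, mul_comm]
  choose f hf1 hf2 using hconj
  have hinj : Function.Injective f := by
    intro σ σ' h
    apply cj_inj χ' hχ'
    rw [hf2, hf2, h]
  have himg : (univ : Finset (CyclotomicField d ℚ →ₐ[ℚ] ℂ)).image f = un d := by
    apply eq_of_subset_of_card_le
    · intro a ha
      obtain ⟨σ, -, rfl⟩ := mem_image.mp ha
      exact hf1 σ
    · rw [card_image_of_injective _ hinj, un_card d (by omega), card_univ, AlgHom.card,
        IsCyclotomicExtension.Rat.finrank d (CyclotomicField d ℚ)]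
  rw [← himg, prod_image fun σ _ σ' _ h => hinj h]
  have h3 : ∀ σ : CyclotomicField d ℚ →ₐ[ℚ] ℂ,
      ‖∑ b ∈ Icc 1 ((p - 1) / 2), (χ ^ (f σ)) (b : ZMod p)‖ = ‖σ ((HS χ' : 𝓞 (CyclotomicField d ℚ)) : CyclotomicField d ℚ)‖ := by
    intro σ
    rw [← hf2, ← HS_cj]
    rfl
  rw [prod_congr rfl fun σ _ => h3 σ, ← hN, hh, ← two_mul, pow_mul,
    Real.sq_sqrt (Nat.cast_nonneg p)]
  push_cast
  ring

end Pool.Agent.K1H22.OG
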