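import Mathlib
import Pool.Agent.K1H22.OG.Stm
import Pool.Agent.H767R5.Kum.B

/-! # The mean square: expansion for one prime -/

set_option autoImplicit false

namespace Pool.Agent.K1H22.OG

open Finset NumberField Filter Topology ComplexConjugate

/-- the number of solutions of `q' x ^ d = q` modulo `p` -/
noncomputable def rr (d p q q' : ℕ) : ℕ := Nat.card {x : ZMod p // (q' : ZMod p) * x ^ d = q}

/-- the correlation -/
noncomputable def ww (d p q q' : ℕ) : ℝ := if p ∣ q * q' then 0 else (rr d p q q' : ℝ) - 1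

theorem sq_exp {p : ℕ} (χ : DirichletCharacter ℂ p) (Z : Finset ℕ) :
    ((‖∑ q ∈ Z, χ (q : ZMod p) / (q : ℂ)‖ ^ 2 : ℝ) : ℂ) =
      ∑ q ∈ Z, ∑ q' ∈ Z, (1 / ((q : ℂ) * q')) * (χ (q : ZMod p) * conj (χ (q' : ZMod p))) := by
  rw [← Complex.normSq_eq_norm_sq, ← Complex.mul_conj, map_sum, sum_mul_sum]
  refine sum_congr rfl fun q _ => sum_congr rfl fun q' _ => ?_
  rw [map_div₀, Complex.conj_natCast]
  ring

open scoped Classical in
theorem char_sum (hR : S_ROOT) {d p : ℕ} (hd : 1 ≤ d) [hp : Fact p.Prime] (q q' : ℕ) :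
    ∑ χ ∈ ((univ : Finset (DirichletCharacter ℂ p)).filter (fun χ => χ ^ d = 1)).erase 1,
      χ (q : ZMod p) * conj (χ (q' : ZMod p)) = ((ww d p q q' : ℝ) : ℂ) := by
  unfold ww
  split_ifs with h
  · rw [Complex.ofReal_zero]
    refine sum_eq_zero fun χ _ => ?_
    rcases (Nat.Prime.dvd_mul hp.out).mp h with h1 | h1
    · have h2 : (q : ZMod p) = 0 := (ZMod.natCast_eq_zero_iff _ _).mpr h1
      rw [h2, MulChar.map_zero, zero_mul]
    · have h2 : (q' : ZMod p) = 0 := (ZMod.natCast_eq_zero_iff _ _).mpr h1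
      rw [h2, MulChar.map_zero, map_zero, mul_zero]
  · have hq : (q : ZMod p) ≠ 0 := by
      rw [Ne, ZMod.natCast_eq_zero_iff]
      exact fun h1 => h (Dvd.dvd.mul_right h1 _)
    have hq' : (q' : ZMod p) ≠ 0 := by
      rw [Ne, ZMod.natCast_eq_zero_iff]
      exact fun h1 => h (Dvd.dvd.mul_left h1 _)
    have ha : (q : ZMod p) * (q' : ZMod p)⁻¹ ≠ 0 := mul_ne_zero hq (inv_ne_zero hq')
    have h1 : ∀ χ : DirichletCharacter ℂ p, χ (q : ZMod p) * conj (χ (q' : ZMod p)) =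
        χ ((Units.mk0 _ ha : (ZMod p)ˣ) : ZMod p) := by
      intro χ
      rw [Units.val_mk0, map_mul, ← MulChar.inv_apply', ← MulChar.star_eq_inv]
      rfl
    rw [sum_congr rfl fun χ _ => h1 χ]
    have h2 := hR d p hd (Units.mk0 _ ha)
    have hmem : (1 : DirichletCharacter ℂ p) ∈
        (univ : Finset (DirichletCharacter ℂ p)).filter (fun χ => χ ^ d = 1) := by
      rw [mem_filter]
      exact ⟨mem_univ _, one_pow _⟩
    rw [← add_sum_erase _ _ hmem, MulChar.one_apply_coe] at h2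
    have h3 : Nat.card {x : ZMod p // x ^ d = ((Units.mk0 _ ha : (ZMod p)ˣ) : ZMod p)} =
        rr d p q q' := by
      unfold rr
      refine Nat.card_congr (Equiv.subtypeEquivRight fun x => ?_)
      rw [Units.val_mk0, eq_mul_inv_iff_mul_eq₀ hq', mul_comm]
    rw [h3] at h2
    push_cast
    linear_combination h2

open scoped Classical in
theorem sum_all (hR : S_ROOT) {d p : ℕ} (hd : 1 ≤ d) [hp : Fact p.Prime] (Z : Finset ℕ) :
    ∑ χ ∈ ((univ : Finset (DirichletCharacter ℂ p)).filter (fun χ => χ ^ d = 1)).erase 1,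
      ‖∑ q ∈ Z, χ (q : ZMod p) / (q : ℂ)‖ ^ 2 =
      ∑ q ∈ Z, ∑ q' ∈ Z, (1 / ((q : ℝ) * q')) * ww d p q q' := by
  have h : ((∑ χ ∈ ((univ : Finset (DirichletCharacter ℂ p)).filter (fun χ => χ ^ d = 1)).erase 1,
      ‖∑ q ∈ Z, χ (q : ZMod p) / (q : ℂ)‖ ^ 2 : ℝ) : ℂ) =
      ((∑ q ∈ Z, ∑ q' ∈ Z, (1 / ((q : ℝ) * q')) * ww d p q q' : ℝ) : ℂ) := by
    rw [Complex.ofReal_sum, sum_congr rfl fun χ _ => sq_exp χ Z, sum_comm, Complex.ofReal_sum]
    refine sum_congr rfl fun q _ => ?_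
    rw [sum_comm, Complex.ofReal_sum]
    refine sum_congr rfl fun q' _ => ?_
    rw [← mul_sum, char_sum hR hd q q']
    push_cast
    rfl
  exact_mod_cast h

theorem one_le (hR : S_ROOT) {d p : ℕ} (hd : 1 ≤ d) [hp : Fact p.Prime] (Z : Finset ℕ)
    (χ : DirichletCharacter ℂ p) (h1 : χ ^ d = 1) (h2 : χ ≠ 1) :
    ‖∑ q ∈ Z, χ (q : ZMod p) / (q : ℂ)‖ ^ 2 ≤
      ∑ q ∈ Z, ∑ q' ∈ Z, (1 / ((q : ℝ) * q')) * ww d p q q' := by
  classical
  rw [← sum_all hR hd Z]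
  refine single_le_sum (f := fun χ : DirichletCharacter ℂ p =>
    ‖∑ q ∈ Z, χ (q : ZMod p) / (q : ℂ)‖ ^ 2) (fun _ _ => by positivity) ?_
  rw [mem_erase, mem_filter]
  exact ⟨h2, mem_univ _, h1⟩

theorem nonneg_all (hR : S_ROOT) {d p : ℕ} (hd : 1 ≤ d) [hp : Fact p.Prime] (Z : Finset ℕ) :
    0 ≤ ∑ q ∈ Z, ∑ q' ∈ Z, (1 / ((q : ℝ) * q')) * ww d p q q' := by
  classical
  rw [← sum_all hR hd Z]
  exact sum_nonneg fun _ _ => by positivity

theorem rr_le {d p : ℕ} (hd : 1 ≤ d) [hp : Fact p.Prime] (q q' : ℕ) (h : ¬ p ∣ q') :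
    rr d p q q' ≤ d := by
  classical
  have hq' : (q' : ZMod p) ≠ 0 := by
    rw [Ne, ZMod.natCast_eq_zero_iff]; exact h
  have h1 : rr d p q q' ≤ ((Polynomial.nthRoots d ((q : ZMod p) * (q' : ZMod p)⁻¹)).toFinset).card := by
    unfold rr
    rw [Nat.card_eq_fintype_card, Fintype.card_subtype]
    refine card_le_card fun x hx => ?_
    rw [mem_filter] at hx
    rw [Multiset.mem_toFinset, Polynomial.mem_nthRoots (by omega), eq_mul_inv_iff_mul_eq₀ hq',
      mul_comm]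
    exact hx.2
  exact h1.trans ((Multiset.toFinset_card_le _).trans (Polynomial.card_nthRoots _ _))

end Pool.Agent.K1H22.OG
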