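import Mathlib
import Pool.Agent.K1H22.OG.MidA

/-! # The mean square -/

set_option autoImplicit false

namespace Pool.Agent.K1H22.OG

open Finset NumberField Filter Topology

/-- the sum over the primes, upper bound -/
theorem W_le (hP : S_PRM) : ∃ C : ℝ, 0 < C ∧ ∀ s : ℝ, 1 < s → s ≤ 2 → ∀ T : Finset ℕ,
    (∀ p ∈ T, p.Prime) → ∑ p ∈ T, (p : ℝ) ^ (-s) ≤ Real.log (1 / (s - 1)) + C := by
  obtain ⟨C, hC, h⟩ := hP 1
  refine ⟨C, hC, fun s hs hs2 T hT => ?_⟩
  have h1 := h ℚ (Module.finrank_self ℚ) s hs hs2 T hT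
  rw [Rat.numberField_discr] at h1
  simp only [Int.cast_one, abs_one, Real.log_one, add_zero, mul_one] at h1
  refine le_trans (le_of_eq (sum_congr rfl fun p _ => ?_)) h1
  have h2 : Nat.card (𝓞 ℚ →+* ZMod p) = 1 := by
    have e : (𝓞 ℚ →+* ZMod p) ≃ (ℤ →+* ZMod p) :=
      { toFun := fun f => f.comp Rat.ringOfIntegersEquiv.symm.toRingHom
        invFun := fun f => f.comp Rat.ringOfIntegersEquiv.toRingHom
        left_inv := fun f => by
          refine RingHom.ext fun x => ?_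
          change f (Rat.ringOfIntegersEquiv.symm (Rat.ringOfIntegersEquiv x)) = f x
          rw [RingEquiv.symm_apply_apply]
        right_inv := fun f => Subsingleton.elim _ _ }
    rw [Nat.card_congr e, Nat.card_eq_one_iff_unique]
    exact ⟨inferInstance, ⟨Int.castRingHom _⟩⟩
  rw [h2]
  simp

/-- the sum of the reciprocals -/
theorem M_le (hP : S_PRM) : ∃ C : ℝ, 0 < C ∧ ∀ y z : ℕ, 2 ≤ z →
    ∑ q ∈ PI y z, 1 / (q : ℝ) ≤ C * (1 + Real.log (1 + Real.log z)) := by
  obtain ⟨C, hC, h⟩ := W_le hP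
  refine ⟨Real.exp 1 * (1 + C), by positivity, fun y z hz => ?_⟩
  have hz0 : (0 : ℝ) < z := by positivity
  have hlz : 0 < Real.log z := Real.log_pos (by exact_mod_cast hz)
  set s : ℝ := 1 + 1 / (1 + Real.log z) with hs
  have hs1 : 1 < s := by rw [hs]; have : 0 < 1 / (1 + Real.log z) := by positivity
                         linarith
  have hs2 : s ≤ 2 := by
    rw [hs]
    have : 1 / (1 + Real.log z) ≤ 1 := by
      rw [div_le_one (by positivity)]; linarith
    linarith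
  have h1 := h s hs1 hs2 (PI y z) (fun p hp => (mem_filter.mp hp).2)
  have h2 : Real.log (1 / (s - 1)) = Real.log (1 + Real.log z) := by
    rw [hs, add_sub_cancel_left, one_div_one_div]
  rw [h2] at h1
  have h3 : ∀ q ∈ PI y z, 1 / (q : ℝ) ≤ Real.exp 1 * (q : ℝ) ^ (-s) := by
    intro q hq
    rw [PI, mem_filter, mem_Ioc] at hq
    have hq0 : (0 : ℝ) < q := by exact_mod_cast hq.2.pos
    have e1 : (q : ℝ) ^ (-s) = 1 / (q : ℝ) * Real.exp (-(Real.log q / (1 + Real.log z))) := by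
      have e0 : (q : ℝ) ^ (-(1 / (1 + Real.log z))) = Real.exp (-(Real.log q / (1 + Real.log z))) := by
        rw [Real.rpow_def_of_pos hq0]
        congr 1
        ring
      rw [hs, neg_add, Real.rpow_add hq0, Real.rpow_neg_one, e0, one_div (q : ℝ)]
    have e2 : Real.exp (-1) ≤ Real.exp (-(Real.log q / (1 + Real.log z))) := by
      apply Real.exp_le_exp.mpr
      apply neg_le_neg
      rw [div_le_one (by positivity)]
      have : Real.log q ≤ Real.log z := Real.log_le_log hq0 (by exact_mod_cast hq.1.2)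
      linarith
    rw [e1]
    calc 1 / (q : ℝ) = Real.exp 1 * (1 / (q : ℝ) * Real.exp (-1)) := by
          rw [mul_comm, mul_assoc, ← Real.exp_add]; simp
      _ ≤ _ := by
          apply mul_le_mul_of_nonneg_left _ (Real.exp_pos 1).le
          exact mul_le_mul_of_nonneg_left e2 (by positivity)
  have h4 : 0 ≤ Real.log (1 + Real.log z) := Real.log_nonneg (by linarith)
  calc ∑ q ∈ PI y z, 1 / (q : ℝ) ≤ ∑ q ∈ PI y z, Real.exp 1 * (q : ℝ) ^ (-s) := sum_le_sum h3
    _ = Real.exp 1 * ∑ q ∈ PI y z, (q : ℝ) ^ (-s) := by rw [mul_sum]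
    _ ≤ Real.exp 1 * (Real.log (1 + Real.log z) + C) :=
        mul_le_mul_of_nonneg_left h1 (Real.exp_pos 1).le
    _ ≤ Real.exp 1 * (1 + C) * (1 + Real.log (1 + Real.log z)) := by
        rw [mul_assoc]
        apply mul_le_mul_of_nonneg_left _ (Real.exp_pos 1).le
        nlinarith [mul_nonneg hC.le h4]

/-- a lower bound for one off-diagonal weight -/
theorem ww_le {d p q q' : ℕ} (hd : 1 ≤ d) (hp : p.Prime) (N : ℕ)
    (hN : ¬ p ∣ d * q * q' → rr d p q q' ≤ N) :
    ww d p q q' ≤ (N : ℝ) - 1 + if p ∣ d * q * q' then (d : ℝ) else 0 := by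
  haveI : Fact p.Prime := ⟨hp⟩
  have hd' : (1 : ℝ) ≤ d := by exact_mod_cast hd
  have hN0 : (0 : ℝ) ≤ N := Nat.cast_nonneg N
  unfold ww
  split_ifs with h1 h2 h2
  · linarith
  · exact absurd (by rw [mul_assoc]; exact Dvd.dvd.mul_left h1 d) h2
  · have h3 : rr d p q q' ≤ d := rr_le hd q q' (fun h => h1 (Dvd.dvd.mul_left h q))
    have h4 : (rr d p q q' : ℝ) ≤ d := by exact_mod_cast h3
    linarith
  · have h4 : (rr d p q q' : ℝ) ≤ N := by exact_mod_cast hN h2
    linarith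

/-- the off-diagonal terms -/
theorem off_le (hP : S_PRM) (hF : S_PURE) (d : ℕ) (hd : 1 ≤ d) : ∃ C : ℝ, 0 < C ∧
    ∀ (z q q' : ℕ), 2 ≤ z → d ≤ z → q.Prime → q'.Prime → q ≠ q' → q ≤ z → q' ≤ z →
      ∀ s : ℝ, 1 < s → s < 2 → ∀ (D : ℝ) (T : Finset ℕ), (∀ p ∈ T, p.Prime) →
        Real.log (1 / (s - 1)) - D ≤ ∑ p ∈ T, (p : ℝ) ^ (-s) →
        ∑ p ∈ T, (p : ℝ) ^ (-s) * ww d p q q' ≤ D + C * (1 + Real.log (1 + Real.log z)) := by
  classical
  obtain ⟨C, hC, h⟩ := hP d
  have hd0 : (0 : ℝ) < d := by exact_mod_cast hd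
  have hd1 : (1 : ℝ) ≤ d := by exact_mod_cast hd
  refine ⟨C * (1 + Real.log (3 * d ^ 2)) + d * (d + 2), ?_, ?_⟩
  · have : 0 ≤ Real.log (3 * (d : ℝ) ^ 2) := Real.log_nonneg (by nlinarith)
    positivity
  intro z q q' hz hdz hq hq' hne hqz hqz' s hs1 hs2 D T hT hD
  obtain ⟨F, i1, i2, hfin, hdisc, hhom⟩ := hF d hd q q' hq hq' hne
  have h1 := h F hfin s hs1 hs2.le T hT
  have hz0 : (0 : ℝ) < z := by positivity
  have hlz : 0 < Real.log z := Real.log_pos (by exact_mod_cast hz)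
  have hLz : 0 ≤ Real.log (1 + Real.log z) := Real.log_nonneg (by linarith)
  -- the discriminant
  have hdq0 : (0 : ℝ) < ((d * q * q' : ℕ) : ℝ) := by
    have : 0 < d * q * q' := Nat.mul_pos (Nat.mul_pos hd hq.pos) hq'.pos
    exact_mod_cast this
  have hdiscr0 : (1 : ℝ) ≤ |(discr F : ℝ)| := by
    have h2 : 1 ≤ |discr F| := Int.one_le_abs (discr_ne_zero F)
    exact_mod_cast h2
  have h2 : Real.log |(discr F : ℝ)| ≤ 3 * d ^ 2 * Real.log z := by
    have e1 := Real.log_le_log (by linarith) hdisc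
    rw [Real.log_pow] at e1
    have e2 : ((d * q * q' : ℕ) : ℝ) ≤ (z : ℝ) ^ 3 := by
      have : d * q * q' ≤ z ^ 3 := by
        calc d * q * q' ≤ z * z * z := Nat.mul_le_mul (Nat.mul_le_mul hdz hqz) hqz'
          _ = z ^ 3 := by ring
      exact_mod_cast this
    have e3 := Real.log_le_log hdq0 e2
    rw [Real.log_pow] at e3
    refine e1.trans ?_
    have e4 : (0 : ℝ) ≤ ((d * d : ℕ) : ℝ) := Nat.cast_nonneg _
    calc ((d * d : ℕ) : ℝ) * Real.log ((d * q * q' : ℕ) : ℝ) ≤ ((d * d : ℕ) : ℝ) * (((3 : ℕ) : ℝ) * Real.log z) :=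
          mul_le_mul_of_nonneg_left e3 e4
      _ = 3 * d ^ 2 * Real.log z := by push_cast; ring
  have hlD0 : 0 ≤ Real.log |(discr F : ℝ)| := Real.log_nonneg hdiscr0
  have h3 : Real.log (1 + Real.log |(discr F : ℝ)|) ≤ Real.log (3 * (d : ℝ) ^ 2) + Real.log (1 + Real.log z) := by
    rw [← Real.log_mul (by positivity) (by positivity)]
    apply Real.log_le_log (by positivity)
    nlinarith
  have h4 : ∀ p ∈ T, (p : ℝ) ^ (-s) * ww d p q q' ≤
      (Nat.card (𝓞 F →+* ZMod p) : ℝ) * (p : ℝ) ^ (-s) - (p : ℝ) ^ (-s) +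
        if p ∣ d * q * q' then (d : ℝ) else 0 := by
    intro p hp
    have hpp := hT p hp
    have e1 := ww_le (q := q) (q' := q') hd hpp (Nat.card (𝓞 F →+* ZMod p)) (hhom p hpp)
    have hp1 : (1 : ℝ) ≤ p := by exact_mod_cast hpp.one_le
    have e2 : (0 : ℝ) ≤ (p : ℝ) ^ (-s) := by positivity
    have e3 : (p : ℝ) ^ (-s) ≤ 1 := Real.rpow_le_one_of_one_le_of_nonpos hp1 (by linarith)
    have e4 := mul_le_mul_of_nonneg_left e1 e2
    refine e4.trans ?_
    split_ifs
    · nlinarith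
    · nlinarith
  refine (sum_le_sum h4).trans ?_
  rw [sum_add_distrib, sum_sub_distrib]
  have h5 : ∑ p ∈ T, (if p ∣ d * q * q' then (d : ℝ) else 0) ≤ d * (d + 2) := by
    rw [← sum_filter, sum_const, nsmul_eq_mul, mul_comm]
    apply mul_le_mul_of_nonneg_left _ hd0.le
    have e1 : T.filter (fun p => p ∣ d * q * q') ⊆ insert q (insert q' (Icc 1 d)) := by
      intro p hp
      rw [mem_filter] at hp
      have hpp := hT p hp.1
      rw [mem_insert, mem_insert, mem_Icc]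
      rcases (Nat.Prime.dvd_mul hpp).mp hp.2 with h6 | h6
      · rcases (Nat.Prime.dvd_mul hpp).mp h6 with h7 | h7
        · exact Or.inr (Or.inr ⟨hpp.one_le, Nat.le_of_dvd hd h7⟩)
        · exact Or.inl ((Nat.prime_dvd_prime_iff_eq hpp hq).mp h7)
      · exact Or.inr (Or.inl ((Nat.prime_dvd_prime_iff_eq hpp hq').mp h6))
    have e2 : (T.filter (fun p => p ∣ d * q * q')).card ≤ d + 2 := by
      refine (card_le_card e1).trans ((card_insert_le _ _).trans ?_)
      have := card_insert_le q' (Icc 1 d)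
      rw [Nat.card_Icc] at this
      omega
    exact_mod_cast e2
  have h6 : 0 ≤ Real.log (3 * (d : ℝ) ^ 2) := Real.log_nonneg (by nlinarith)
  have h7 : C * (1 + Real.log (1 + Real.log |(discr F : ℝ)|)) ≤
      C * (1 + Real.log (3 * (d : ℝ) ^ 2)) * (1 + Real.log (1 + Real.log z)) := by
    rw [mul_assoc]
    apply mul_le_mul_of_nonneg_left _ hC.le
    nlinarith [mul_nonneg h6 hLz]
  have h8 : (d : ℝ) * (d + 2) ≤ d * (d + 2) * (1 + Real.log (1 + Real.log z)) := by
    have : 0 ≤ (d : ℝ) * (d + 2) := by positivity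
    nlinarith
  linarith

theorem t_MIDof : S_MIDof := by
  classical
  intro hP hF hR d hd
  obtain ⟨C1, hC1, hW⟩ := W_le hP
  obtain ⟨C2, hC2, hM⟩ := M_le hP
  obtain ⟨C3, hC3, hO⟩ := off_le hP hF d hd
  obtain ⟨C4, hB⟩ := Pool.Agent.H767R5.Kum.taskB
  have hd0 : (0 : ℝ) < d := by exact_mod_cast hd
  set C5 : ℝ := |C4| + 1 + C3 with hC5
  have hC50 : 0 < C5 := by positivity
  refine ⟨Real.exp 1 * (d * (1 + C1)) + Real.exp 1 * (C2 ^ 2 * C5), by positivity, ?_⟩
  intro x y z hx hdy hz P χ hPχ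
  have hx0 : (0 : ℝ) < x := by positivity
  have hlx : 1 < Real.log x := by
    rw [Real.lt_log_iff_exp_lt hx0]
    have h1 := Real.exp_one_lt_d9
    have h2 : (3 : ℝ) ≤ x := by exact_mod_cast hx
    linarith
  have hlz : 0 < Real.log z := Real.log_pos (by exact_mod_cast hz)
  have hLz : 0 ≤ Real.log (1 + Real.log z) := Real.log_nonneg (by linarith)
  have hllx : 0 < Real.log (Real.log x) := Real.log_pos hlx
  have hy0 : (0 : ℝ) < y := by exact_mod_cast (by omega : 0 < y)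
  have hRHS0 : 0 ≤ (Real.exp 1 * (d * (1 + C1)) + Real.exp 1 * (C2 ^ 2 * C5)) * (1 + Real.log (Real.log x)) / y +
      (Real.exp 1 * (d * (1 + C1)) + Real.exp 1 * (C2 ^ 2 * C5)) * (1 + Real.log (1 + Real.log z)) ^ 3 := by
    positivity
  -- trivial case
  rcases Nat.lt_or_ge y z with hyz | hyz
  swap
  · have h1 : PI y z = ∅ := by
      rw [PI, Ioc_eq_empty (by omega), filter_empty]
    rw [h1]
    simpa using hRHS0
  set s : ℝ := 1 + 1 / Real.log x with hs
  have hs1 : 1 < s := by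
    rw [hs]; have : 0 < 1 / Real.log x := by positivity
    linarith
  have hs2 : s < 2 := by
    rw [hs]
    have : 1 / Real.log x < 1 := by
      rw [div_lt_one (by linarith)]; exact hlx
    linarith
  have hls : Real.log (1 / (s - 1)) = Real.log (Real.log x) := by
    rw [hs, add_sub_cancel_left, one_div_one_div]
  -- a large finite set of primes
  have hsum : Summable (fun p : Nat.Primes => ((p : ℕ) : ℝ) ^ (-s)) :=
    Nat.Primes.summable_rpow.mpr (by linarith)
  obtain ⟨T0, hT0⟩ : ∃ T0 : Finset Nat.Primes,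
      (∑' p : Nat.Primes, ((p : ℕ) : ℝ) ^ (-s)) - 1 < ∑ p ∈ T0, ((p : ℕ) : ℝ) ^ (-s) :=
    (hsum.hasSum.eventually (lt_mem_nhds (sub_one_lt _))).exists
  set T : Finset ℕ := T0.image (fun p : Nat.Primes => (p : ℕ)) ∪ P with hT
  have hTp : ∀ p ∈ T, p.Prime := by
    intro p hp
    rw [hT, mem_union, mem_image] at hp
    rcases hp with ⟨p', -, rfl⟩ | hp
    · exact p'.2
    · exact (hPχ p hp).1
  have hTW : Real.log (1 / (s - 1)) - (|C4| + 1) ≤ ∑ p ∈ T, (p : ℝ) ^ (-s) := by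
    have h1 : ∑ p ∈ T0, ((p : ℕ) : ℝ) ^ (-s) = ∑ p ∈ T0.image (fun p : Nat.Primes => (p : ℕ)), (p : ℝ) ^ (-s) := by
      rw [sum_image]
      intro a _ b _ h
      exact Subtype.ext h
    have h2 : ∑ p ∈ T0.image (fun p : Nat.Primes => (p : ℕ)), (p : ℝ) ^ (-s) ≤ ∑ p ∈ T, (p : ℝ) ^ (-s) :=
      sum_le_sum_of_subset_of_nonneg subset_union_left fun _ _ _ => by positivity
    have h3 := hB s hs1 hs2
    have h4 := le_abs_self C4
    linarith
  -- passage to all characters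
  have hstep : ∑ p ∈ P, (1 / (p : ℝ)) * ‖∑ q ∈ PI y z, χ p (q : ZMod p) / (q : ℂ)‖ ^ 2 ≤
      Real.exp 1 * ∑ p ∈ T, (p : ℝ) ^ (-s) *
        ∑ q ∈ PI y z, ∑ q' ∈ PI y z, (1 / ((q : ℝ) * q')) * ww d p q q' := by
    have h1 : ∀ p ∈ P, (1 / (p : ℝ)) * ‖∑ q ∈ PI y z, χ p (q : ZMod p) / (q : ℂ)‖ ^ 2 ≤
        Real.exp 1 * ((p : ℝ) ^ (-s) *
        ∑ q ∈ PI y z, ∑ q' ∈ PI y z, (1 / ((q : ℝ) * q')) * ww d p q q') := by
      intro p hp
      obtain ⟨hpp, hpx, hχ1, hχ2⟩ := hPχ p hp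
      haveI : Fact p.Prime := ⟨hpp⟩
      have hp0 : (0 : ℝ) < p := by exact_mod_cast hpp.pos
      have e1 : (p : ℝ) ^ (-s) = 1 / (p : ℝ) * Real.exp (-(Real.log p / Real.log x)) := by
        have e0 : (p : ℝ) ^ (-(1 / Real.log x)) = Real.exp (-(Real.log p / Real.log x)) := by
          rw [Real.rpow_def_of_pos hp0]
          congr 1
          ring
        rw [hs, neg_add, Real.rpow_add hp0, Real.rpow_neg_one, e0, one_div (p : ℝ)]
      have e2 : Real.exp (-1) ≤ Real.exp (-(Real.log p / Real.log x)) := by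
        apply Real.exp_le_exp.mpr
        apply neg_le_neg
        rw [div_le_one (by linarith)]
        exact Real.log_le_log hp0 (by exact_mod_cast hpx)
      have e3 : 1 / (p : ℝ) ≤ Real.exp 1 * (p : ℝ) ^ (-s) := by
        rw [e1]
        calc 1 / (p : ℝ) = Real.exp 1 * (1 / (p : ℝ) * Real.exp (-1)) := by
              rw [mul_comm, mul_assoc, ← Real.exp_add]; simp
          _ ≤ _ := by
              apply mul_le_mul_of_nonneg_left _ (Real.exp_pos 1).le
              exact mul_le_mul_of_nonneg_left e2 (by positivity)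
      have e4 := one_le hR hd (PI y z) (χ p) hχ1 hχ2
      calc (1 / (p : ℝ)) * ‖∑ q ∈ PI y z, χ p (q : ZMod p) / (q : ℂ)‖ ^ 2 ≤
            (Real.exp 1 * (p : ℝ) ^ (-s)) * ‖∑ q ∈ PI y z, χ p (q : ZMod p) / (q : ℂ)‖ ^ 2 :=
            mul_le_mul_of_nonneg_right e3 (by positivity)
        _ ≤ (Real.exp 1 * (p : ℝ) ^ (-s)) * _ := mul_le_mul_of_nonneg_left e4 (by positivity)
        _ = _ := by rw [mul_assoc]
    refine (sum_le_sum h1).trans ?_
    rw [← mul_sum]
    apply mul_le_mul_of_nonneg_left _ (Real.exp_pos 1).le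
    refine sum_le_sum_of_subset_of_nonneg subset_union_right fun p hp _ => ?_
    haveI : Fact p.Prime := ⟨hTp p hp⟩
    exact mul_nonneg (by positivity) (nonneg_all hR hd _)
  -- exchange
  have hexch : ∑ p ∈ T, (p : ℝ) ^ (-s) *
        ∑ q ∈ PI y z, ∑ q' ∈ PI y z, (1 / ((q : ℝ) * q')) * ww d p q q' =
      ∑ q ∈ PI y z, ∑ q' ∈ PI y z, (1 / ((q : ℝ) * q')) *
        ∑ p ∈ T, (p : ℝ) ^ (-s) * ww d p q q' := by
    simp only [mul_sum]
    rw [sum_comm]
    refine sum_congr rfl fun q _ => ?_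
    rw [sum_comm]
    refine sum_congr rfl fun q' _ => ?_
    refine sum_congr rfl fun p _ => ?_
    ring
  rw [hexch] at hstep
  -- bounds for the inner sums
  have hin : ∀ q ∈ PI y z, ∀ q' ∈ PI y z, ∑ p ∈ T, (p : ℝ) ^ (-s) * ww d p q q' ≤
      C5 * (1 + Real.log (1 + Real.log z)) +
        if q = q' then (d : ℝ) * (Real.log (Real.log x) + C1) else 0 := by
    intro q hq q' hq'
    rw [PI, mem_filter, mem_Ioc] at hq hq'
    split_ifs with h
    · subst h
      have h1 : ∑ p ∈ T, (p : ℝ) ^ (-s) * ww d p q q ≤ ∑ p ∈ T, (d : ℝ) * (p : ℝ) ^ (-s) := by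
        refine sum_le_sum fun p hp => ?_
        haveI : Fact p.Prime := ⟨hTp p hp⟩
        have e1 : ww d p q q ≤ d := by
          unfold ww
          split_ifs with h2
          · exact hd0.le
          · have h3 : rr d p q q ≤ d := rr_le hd q q (fun h => h2 (Dvd.dvd.mul_left h q))
            have h4 : (rr d p q q : ℝ) ≤ d := by exact_mod_cast h3
            linarith
        rw [mul_comm]
        exact mul_le_mul_of_nonneg_right e1 (by positivity)
      rw [← mul_sum] at h1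
      have h2 := hW s hs1 hs2.le T hTp
      rw [hls] at h2
      have h3 := mul_le_mul_of_nonneg_left h2 hd0.le
      have h4 : 0 ≤ C5 * (1 + Real.log (1 + Real.log z)) := by positivity
      linarith
    · have h1 := hO z q q' hz (by omega) hq.2 hq'.2 h hq.1.2 hq'.1.2 s hs1 hs2 (|C4| + 1) T hTp hTW
      rw [add_zero]
      refine h1.trans ?_
      rw [hC5]
      have h2 : 0 ≤ |C4| := abs_nonneg _
      nlinarith [mul_nonneg h2 hLz]
  have hfin : ∑ q ∈ PI y z, ∑ q' ∈ PI y z, (1 / ((q : ℝ) * q')) *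
        ∑ p ∈ T, (p : ℝ) ^ (-s) * ww d p q q' ≤
      (C2 * (1 + Real.log (1 + Real.log z))) ^ 2 * (C5 * (1 + Real.log (1 + Real.log z))) +
        (1 / (y : ℝ)) * (d * (Real.log (Real.log x) + C1)) := by
    have h1 : ∑ q ∈ PI y z, ∑ q' ∈ PI y z, (1 / ((q : ℝ) * q')) *
        ∑ p ∈ T, (p : ℝ) ^ (-s) * ww d p q q' ≤
        ∑ q ∈ PI y z, ∑ q' ∈ PI y z, (1 / ((q : ℝ) * q')) *
          (C5 * (1 + Real.log (1 + Real.log z)) +
            if q = q' then (d : ℝ) * (Real.log (Real.log x) + C1) else 0) :=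
      sum_le_sum fun q hq => sum_le_sum fun q' hq' =>
        mul_le_mul_of_nonneg_left (hin q hq q' hq') (by positivity)
    refine h1.trans ?_
    have h2 : ∑ q ∈ PI y z, ∑ q' ∈ PI y z, (1 / ((q : ℝ) * q')) *
          (C5 * (1 + Real.log (1 + Real.log z)) +
            if q = q' then (d : ℝ) * (Real.log (Real.log x) + C1) else 0) =
        (∑ q ∈ PI y z, 1 / (q : ℝ)) ^ 2 * (C5 * (1 + Real.log (1 + Real.log z))) +
          (∑ q ∈ PI y z, 1 / ((q : ℝ) ^ 2)) * (d * (Real.log (Real.log x) + C1)) := by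
      generalize C5 * (1 + Real.log (1 + Real.log z)) = A
      generalize (d : ℝ) * (Real.log (Real.log x) + C1) = B
      have e0 : ∀ q ∈ PI y z, ∑ q' ∈ PI y z, (1 / ((q : ℝ) * q')) * (A + if q = q' then B else 0) =
          (1 / (q : ℝ)) * (∑ q' ∈ PI y z, 1 / (q' : ℝ)) * A + 1 / ((q : ℝ) ^ 2) * B := by
        intro q hq
        simp only [mul_add, sum_add_distrib]
        congr 1
        · rw [← sum_mul, mul_sum]
          congr 1
          refine sum_congr rfl fun q' _ => ?_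
          rw [one_div_mul_one_div]
        · simp only [mul_ite, mul_zero]
          rw [sum_ite_eq, if_pos hq, sq]
      rw [sum_congr rfl e0, sum_add_distrib, ← sum_mul, ← sum_mul, ← sum_mul, sq]
    rw [h2]
    have h3 : ∑ q ∈ PI y z, 1 / ((q : ℝ) ^ 2) ≤ 1 / (y : ℝ) := by
      have e1 : ∑ q ∈ PI y z, 1 / ((q : ℝ) ^ 2) ≤ ∑ q ∈ Ioc y z, ((q : ℝ) ^ 2)⁻¹ := by
        refine (sum_le_sum_of_subset_of_nonneg (filter_subset _ _) fun _ _ _ => by positivity).trans
          (le_of_eq (sum_congr rfl fun q _ => one_div _))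
      have e2 := sum_Ioc_inv_sq_le_sub (α := ℝ) (k := y) (n := z) (by omega) hyz.le
      have e3 : (0 : ℝ) ≤ (z : ℝ)⁻¹ := by positivity
      rw [one_div]
      linarith
    have h4 := hM y z hz
    have h5 : 0 ≤ ∑ q ∈ PI y z, 1 / (q : ℝ) := sum_nonneg fun _ _ => by positivity
    apply add_le_add
    · apply mul_le_mul_of_nonneg_right _ (by positivity)
      exact pow_le_pow_left₀ h5 h4 2
    · exact mul_le_mul_of_nonneg_right h3 (by positivity)
  refine hstep.trans ((mul_le_mul_of_nonneg_left hfin (Real.exp_pos 1).le).trans ?_)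
  have k1 : Real.exp 1 * (1 / (y : ℝ) * (d * (Real.log (Real.log x) + C1))) ≤
      Real.exp 1 * (d * (1 + C1)) * (1 + Real.log (Real.log x)) / y := by
    rw [one_div, mul_comm (y : ℝ)⁻¹, ← mul_assoc, div_eq_mul_inv]
    apply mul_le_mul_of_nonneg_right _ (by positivity)
    rw [mul_assoc]
    apply mul_le_mul_of_nonneg_left _ (Real.exp_pos 1).le
    rw [mul_assoc]
    apply mul_le_mul_of_nonneg_left _ hd0.le
    nlinarith [mul_pos hC1 hllx]
  have k2 : Real.exp 1 * ((C2 * (1 + Real.log (1 + Real.log z))) ^ 2 * (C5 * (1 + Real.log (1 + Real.log z)))) =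
      Real.exp 1 * (C2 ^ 2 * C5) * (1 + Real.log (1 + Real.log z)) ^ 3 := by ring
  have k3 : 0 ≤ Real.exp 1 * (C2 ^ 2 * C5) * (1 + Real.log (Real.log x)) / y := by positivity
  have k4 : 0 ≤ Real.exp 1 * (d * (1 + C1)) * (1 + Real.log (1 + Real.log z)) ^ 3 := by positivity
  calc _ = Real.exp 1 * ((C2 * (1 + Real.log (1 + Real.log z))) ^ 2 * (C5 * (1 + Real.log (1 + Real.log z)))) +
        Real.exp 1 * (1 / (y : ℝ) * (d * (Real.log (Real.log x) + C1))) := by ring
    _ ≤ Real.exp 1 * (C2 ^ 2 * C5) * (1 + Real.log (1 + Real.log z)) ^ 3 +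
        Real.exp 1 * (d * (1 + C1)) * (1 + Real.log (Real.log x)) / y := by rw [k2]; linarith
    _ ≤ _ := by
      rw [add_mul, add_mul, add_div]
      linarith

end Pool.Agent.K1H22.OG
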